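import Pool.Agent.V11257.Zs1

/-!
# A Tychonoff space of countable pseudocharacter in which a point is not a zero-set

In a symmetric model of ZF there is a sequence of sets `A n`, each of them a copy of the set of the
integers up to translations, such that every set is invariant under the translations of almost all
of them. The space is the ordered space `p 0 < A 0 < p 1 < A 1 < ... < a`. The set of the last
point `a` is the intersection of the open intervals above the points `p n`, and the other points
are separated by countably many clopen sets. Every continuous real function on the space has the
same value at almost all points `p n`, so that the set of the point `a` is not a zero-set.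
-/

namespace Pool.Agent.Results.MP_053343_lc.ZeroSetTopologyNotDiscrete

open FirstOrder FirstOrder.Language
open Pool.Agent.Helper672.Plain (LSet Mem)
open Pool.Agent.H635Amen (ZF)
open Pool.Agent.H310Top (IsTopology)
open Pool.Agent.V11257Z

universe u

/-- In the model `N` there is a Tychonoff space `x` with the topology `t` of countable
pseudocharacter, and a subset `u` of it that is not open in the topology that has the zero-sets as
a base. -/
def HasSpace (N : Type u) [LSet.Structure N] : Prop :=
  ∃ x t u : N, IsTopology t x ∧ IsTychonoff t x ∧ HasCtblePseudocharacter t x ∧
    (∀ z, Mem z u → Mem z x) ∧ ¬ IsZOpen t x u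

/-- There is a model of ZF with such a space; and for every model of ZF there is one (in the same
universe). -/
theorem result : (∃ (N : Type 1) (_ : LSet.Structure N), ZF N ∧ HasSpace N) ∧
    ∀ (M : Type u) [LSet.Structure M], ZF M →
      ∃ (N : Type u) (_ : LSet.Structure N), ZF N ∧ HasSpace N := by
  refine ⟨exists_of_forall fun M _ hM => ?_, fun M _ hM => ?_⟩
  · obtain ⟨N, i, hN, hT⟩ := exists_zt M hM
    exact ⟨N, i, hN, space_cpc_of hT⟩
  · obtain ⟨N, i, hN, hT⟩ := exists_zt M hM
    exact ⟨N, i, hN, space_cpc_of hT⟩

end Pool.Agent.Results.MP_053343_lc.ZeroSetTopologyNotDiscrete
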